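import Pool.Agent.Q34.QWg

/-!
`S_p(q) ≡ -c_p q (1 - q)^2 [p]^4 Φ_{p²}(q)  (mod Φ_{p²}(q) [p]^5)` for every prime `p`.
-/

set_option autoImplicit false

namespace Pool.Agent.Results.MP_9fe52c_nt.Full

open Finset Polynomial

/-- the indeterminate -/
noncomputable abbrev q : RatFunc ℚ := RatFunc.X

/-- the `q`-integer `[n] = (1 - q^n) / (1 - q)` -/
noncomputable def br (n : ℕ) : RatFunc ℚ := (1 - q ^ n) / (1 - q)

/-- the shifted factorial `(a; Q)_k` -/
noncomputable def qs (a Q : RatFunc ℚ) (k : ℕ) : RatFunc ℚ := ∏ i ∈ range k, (1 - a * Q ^ i)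

/-- the sum of the problem -/
noncomputable def S (p : ℕ) : RatFunc ℚ :=
  ∑ j ∈ range p, br (2 * (p + 1) * j + 1) *
    (qs q (q ^ (p + 1)) j / qs (q ^ (p + 1)) (q ^ (p + 1)) j) ^ (2 * (p + 1)) * q ^ ((p ^ 2 - 1) * j)

/-- `c_p = p (p - 1) (p + 1)² (2 p + 1) / 72` -/
def c (p : ℕ) : ℚ := p * (p - 1) * (p + 1) ^ 2 * (2 * p + 1) / 72

/-- a polynomial as a rational function -/
noncomputable abbrev em (A : ℚ[X]) : RatFunc ℚ := algebraMap ℚ[X] (RatFunc ℚ) A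

/-- `x ≡ y (mod f)`: `x - y = P / Q` with `gcd (Q, f) = 1` and `f ∣ P` -/
def Cong (f : ℚ[X]) (x y : RatFunc ℚ) : Prop :=
  ∃ P Q : ℚ[X], x - y = em P / em Q ∧ IsCoprime Q f ∧ f ∣ P

open Pool.Agent.Q34.QW (QC Rf Un I cyc_prime cyc_dvd cyc_dvd_pow cyc_not_X cyc_not_pow un_em loc_em X_pow_ne mem_em
  cg_of_I Cg Cg.sub cg_poly W ka_eq NN NN_map GG GG_map NN_eq ro anti ze ze_prim)

theorem em_X : em X = q := RatFunc.algebraMap_X

theorem em_pow (N : ℕ) : em (1 - X ^ N) = 1 - q ^ N := by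
  simp only [em, map_sub, map_one, map_pow, RatFunc.algebraMap_X]

theorem qc {n : ℕ} (hp : (n + 1).Prime) :
    QC (Rf (cyclotomic (n + 1) ℚ) (cyc_prime (by omega))) (em (1 - X ^ (n + 1))) q (q ^ (n + 2)) n (n + 1) where
  L := loc_em _ (cyc_dvd_pow (by omega) dvd_rfl)
  hn := by
    have := hp.two_le
    omega
  ha := by
    have := (un_em (cyc_prime (show 0 < n + 1 by omega)) (cyc_not_X (by omega)))
    rwa [show Pool.Agent.Q34.QW.em X = q from em_X] at this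
  hQ := by
    rw [em_pow, sub_sub_cancel, ← pow_succ']
  hQn := by
    rw [em_pow, sub_sub_cancel, ← pow_mul, ← pow_mul]
    congr 1
    ring
  hU := by
    intro j hj
    rw [← pow_mul, ← em_pow]
    refine un_em _ (cyc_not_pow (by omega) fun h => ?_)
    rcases (Nat.Prime.dvd_mul hp).1 h with h | h
    · have h1 : n + 1 ∣ (n + 2) - (n + 1) := Nat.dvd_sub h dvd_rfl
      have h2 := hp.two_le
      have h3 := Nat.le_of_dvd (by omega) h1
      omega
    · exact absurd (Nat.le_of_dvd (by omega) h) (by omega)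
  ne :=
    { hQ := pow_ne_zero _ RatFunc.X_ne_zero
      hF := by
        intro i h
        rw [← pow_mul, ← pow_succ'] at h
        exact X_pow_ne (a := 0) (b := (n + 2) * i + 1) (by omega) (by rw [pow_zero]; exact sub_eq_zero.1 h)
      hG := by
        intro i h
        rw [← pow_mul] at h
        refine X_pow_ne (a := 0) (b := (n + 2) * (i + 1)) ?_ (by rw [pow_zero]; exact sub_eq_zero.1 h)
        exact (Nat.mul_pos (by omega) (by omega)).ne }

theorem qs_ratio (a Q : RatFunc ℚ) (k : ℕ) : qs a Q k / qs Q Q k = ∏ j ∈ range k, ((1 - a * Q ^ j) / (1 - Q ^ (j + 1))) := by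
  unfold qs
  rw [← prod_div_distrib]
  exact prod_congr rfl fun j _ => by rw [pow_succ' Q j]

theorem S_eq (n : ℕ) : S (n + 1) =
    (∑ j ∈ range (n + 1), (1 - q * (q ^ (n + 2)) ^ (2 * j)) * W q (q ^ (n + 2)) n (n + 1) j) / (1 - q) := by
  unfold S W br
  rw [sum_div]
  refine sum_congr rfl fun j _ => ?_
  rw [show n + 1 + 1 = n + 2 by omega, qs_ratio]
  have e1 : q ^ (2 * (n + 2) * j + 1) = q * (q ^ (n + 2)) ^ (2 * j) := by
    rw [← pow_mul, ← pow_succ']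
    congr 1
    ring
  have e2 : q ^ (((n + 1) ^ 2 - 1) * j) = ((q ^ (n + 2)) ^ n) ^ j := by
    rw [← pow_mul, ← pow_mul]
    congr 1
    rw [show (n + 1) ^ 2 = (n + 2) * n + 1 by ring, Nat.add_sub_cancel, mul_assoc]
  rw [e1, e2]
  ring

/-- the right hand side -/
noncomputable def rhs (p : ℕ) : ℚ[X] :=
  -(C (c p) * X * (1 - X) ^ 2 * cyclotomic p ℚ ^ 4 * cyclotomic (p ^ 2) ℚ)

theorem hcyc {n : ℕ} (hp : (n + 1).Prime) : (1 - X ^ (n + 1) : ℚ[X]) = (1 - X) * cyclotomic (n + 1) ℚ := by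
  have : Fact (n + 1).Prime := ⟨hp⟩
  rw [cyclotomic_prime, mul_neg_geom_sum]

theorem partA {n : ℕ} (hp : (n + 1).Prime) :
    Cg (cyclotomic (n + 1) ℚ ^ 5) (S (n + 1) - em (rhs (n + 1))) := by
  have CC := qc hp
  have hpos : 0 < n + 1 := by omega
  have h2le := hp.two_le
  have hF := CC.final
  have hH := CC.HS_I
  have uq : Un (Rf (cyclotomic (n + 1) ℚ) (cyc_prime hpos)) (1 - q) := by
    have := un_em (cyc_prime hpos) (cyc_not_pow hpos (N := 1) (by
      intro h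
      have := Nat.le_of_dvd one_pos h
      omega))
    rwa [show Pool.Agent.Q34.QW.em (1 - X ^ 1) = 1 - q ^ 1 from em_pow 1, pow_one] at this
  have uQ := CC.Qn_unit
  have haQ := CC.aQn
  have hbr := CC.br_I (n + 1)
  set R := Rf (cyclotomic (n + 1) ℚ) (cyc_prime hpos) with hR
  set h := em (1 - X ^ (n + 1)) with hh
  set Q := q ^ (n + 2) with hQ
  set P : RatFunc ℚ := ((n + 1 : ℕ) : RatFunc ℚ) with hP
  have hPh : em (cyclotomic ((n + 1) ^ 2) ℚ) = ∑ j ∈ range (n + 1), (1 - h) ^ j := by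
    have := cyclotomic_prime_pow_eq_geom_sum (R := ℚ) (n := 1) hp
    rw [show (1 + 1 : ℕ) = 2 by norm_num] at this
    rw [this, hh, em_pow, sub_sub_cancel]
    simp only [em, map_sum, map_pow, RatFunc.algebraMap_X, pow_one]
  set F := em (cyclotomic ((n + 1) ^ 2) ℚ) with hFdef
  rw [← hPh] at hbr haQ
  have FR : F ∈ R := mem_em _ _
  have kaR : QC.ka (RatFunc ℚ) (n + 1) ∈ R := CC.ka_mem (n + 1)
  have PR : P ∈ R := QC.natCast_mem' _
  have qR : q ∈ R := by rw [← em_X]; exact mem_em _ _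
  have u12 : Un R (12 : RatFunc ℚ) := by
    have := CC.L.rat 12 (by norm_num)
    exact ⟨by norm_num, by exact_mod_cast QC.natCast_mem' 12, by exact_mod_cast this.2⟩
  have eR : (P ^ 2 - 1) / 12 ∈ R := Pool.Agent.Q34.QW.div_mem
    (R.sub_mem (R.pow_mem PR 2) R.one_mem) u12
  set E := (P ^ 2 - 1) / 12 with hE
  have i1 : I R h 1 (1 - q * Q ^ n) := by
    rw [haQ]
    exact ⟨F, FR, by rw [pow_one]⟩
  have b1 : I R h 1 (QC.HS Q n / (1 - Q ^ n) - E * q / (1 - q)) := by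
    have e : QC.HS Q n / (1 - Q ^ n) - E * q / (1 - q) =
        (QC.HS Q n + E) / (1 - Q ^ n) - E * ((1 - q * Q ^ n) / ((1 - q) * (1 - Q ^ n))) := by
      have v1 := uq.1
      have v2 := uQ.1
      field_simp
      ring
    rw [e]
    exact (hH.div uQ).sub (I.mem_mul eR (i1.div (uq.mul uQ)))
  have i4 : I R h 4 (h ^ 4) := ⟨1, R.one_mem, by ring⟩
  have b2 : I R h 5 (∑ j ∈ range (n + 1), (1 - q * Q ^ (2 * j)) * W q Q n (n + 1) j +
      h ^ 4 * (QC.ka (RatFunc ℚ) (n + 1) * F * (E * q / (1 - q)))) := by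
    have b3 := (hF.sub (i4.mul (m := 1) (I.mem_mul (R.mul_mem kaR PR) b1))).add
      (i4.mul (m := 1) ((I.mem_mul kaR hbr).mul_mem (Pool.Agent.Q34.QW.div_mem (R.mul_mem eR qR) uq)))
    have e : ∑ j ∈ range (n + 1), (1 - q * Q ^ (2 * j)) * W q Q n (n + 1) j +
      h ^ 4 * (QC.ka (RatFunc ℚ) (n + 1) * F * (E * q / (1 - q))) =
      ((∑ j ∈ range (n + 1), (1 - q * Q ^ (2 * j)) * W q Q n (n + 1) j +
        h ^ 4 * (QC.ka (RatFunc ℚ) (n + 1) * P * QC.HS Q n / (1 - Q ^ n))) -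
      h ^ 4 * (QC.ka (RatFunc ℚ) (n + 1) * P * (QC.HS Q n / (1 - Q ^ n) - E * q / (1 - q)))) +
      h ^ 4 * (QC.ka (RatFunc ℚ) (n + 1) * (F - P) * (E * q / (1 - q))) := by
      ring
    rw [e]
    exact b3
  have b4 := b2.div uq
  have e5 : (∑ j ∈ range (n + 1), (1 - q * Q ^ (2 * j)) * W q Q n (n + 1) j +
      h ^ 4 * (QC.ka (RatFunc ℚ) (n + 1) * F * (E * q / (1 - q)))) / (1 - q) =
      S (n + 1) - em (rhs (n + 1)) := by
    rw [S_eq]
    suffices hs : h ^ 4 * (QC.ka (RatFunc ℚ) (n + 1) * F * (E * q / (1 - q))) / (1 - q) = -em (rhs (n + 1)) by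
      rw [add_div, hs, ← sub_eq_add_neg]
    rw [hh, hcyc hp]
    unfold rhs c
    have hka := ka_eq (K := RatFunc ℚ) (n + 1)
    have e6 : QC.ka (RatFunc ℚ) (n + 1) = P * (P + 1) * (2 * P + 1) / 6 := by
      rw [eq_div_iff (by norm_num), hP, ← hka]
      ring
    rw [e6, hE]
    have v1 := uq.1
    have hC : ∀ c : ℚ, algebraMap ℚ[X] (RatFunc ℚ) (C c) = algebraMap ℚ (RatFunc ℚ) c := fun c => by
      rw [IsScalarTower.algebraMap_apply ℚ ℚ[X] (RatFunc ℚ) c]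
      rfl
    have e7 : algebraMap ℚ[X] (RatFunc ℚ) (C ((((n + 1 : ℕ) : ℚ)) * (((n + 1 : ℕ) : ℚ) - 1) * (((n + 1 : ℕ) : ℚ) + 1) ^ 2 *
        (2 * ((n + 1 : ℕ) : ℚ) + 1) / 72)) = P * (P - 1) * (P + 1) ^ 2 * (2 * P + 1) / 72 := by
      rw [hC, hP]
      push_cast
      simp only [map_mul, map_sub, map_add, map_pow, map_div₀, map_one, map_natCast, map_ofNat]
    simp only [em, map_mul, map_pow, map_sub, map_one, map_neg, RatFunc.algebraMap_X] at *
    rw [e7]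
    field_simp
    ring
  rw [← e5]
  exact cg_of_I _ (c := 1 - X) (hcyc hp) b4

theorem not_dvd {n j : ℕ} (hp : (n + 1).Prime) (hj : j < n) : ¬ (n + 1) ^ 2 ∣ (n + 2) * (j + 1) := by
  intro h
  have h2 := hp.two_le
  have h1 : n + 1 ∣ (n + 2) * (j + 1) := (dvd_pow_self _ two_ne_zero).trans h
  rcases (Nat.Prime.dvd_mul hp).1 h1 with h | h
  · have h1 : n + 1 ∣ (n + 2) - (n + 1) := Nat.dvd_sub h dvd_rfl
    have h3 := Nat.le_of_dvd (by omega) h1
    omega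
  · exact absurd (Nat.le_of_dvd (by omega) h) (by omega)

theorem partB {n : ℕ} (hp : (n + 1).Prime) :
    Cg (cyclotomic ((n + 1) ^ 2) ℚ) (S (n + 1) - em (rhs (n + 1))) := by
  have hpos : 0 < (n + 1) ^ 2 := by positivity
  have h2 := hp.two_le
  have hN : cyclotomic ((n + 1) ^ 2) ℚ ∣ NN n (n + 2) (X : ℚ[X]) (X ^ (n + 2)) := by
    rw [cyc_dvd hpos]
    have e := NN_map (aeval (ze ((n + 1) ^ 2)) : ℚ[X] →ₐ[ℚ] ℂ).toRingHom n (n + 2) X (X ^ (n + 2))
    have e' : aeval (ze ((n + 1) ^ 2)) (NN n (n + 2) (X : ℚ[X]) (X ^ (n + 2))) =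
        NN n (n + 2) (ze ((n + 1) ^ 2)) (ze ((n + 1) ^ 2) ^ (n + 2)) := by
      simpa using e
    rw [e']
    set z := ze ((n + 1) ^ 2) with hz
    have hzp : IsPrimitiveRoot z ((n + 1) ^ 2) := ze_prim hpos.ne'
    have hz1 : z ^ ((n + 1) ^ 2) = 1 := hzp.pow_eq_one
    have hne : ∀ j < n, 1 - (z ^ (n + 2)) ^ (j + 1) ≠ 0 := by
      intro j hj h
      rw [← pow_mul] at h
      exact not_dvd hp hj (hzp.dvd_of_pow_eq_one _ (sub_eq_zero.1 h).symm)
    rw [NN_eq hne]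
    rw [anti (g := z ^ (n + 1)) hne, mul_zero]
    · rw [← pow_mul, ← pow_succ', ← hz1]
      congr 1
      ring
    · rw [← pow_succ']
    · rfl
    · rw [← pow_mul, ← hz1]
      congr 1
      ring
  have hG : ¬ cyclotomic ((n + 1) ^ 2) ℚ ∣ GG n (X ^ (n + 2) : ℚ[X]) ^ (2 * (n + 2)) * (1 - X) := by
    intro h
    rcases (cyc_prime hpos).dvd_or_dvd h with h | h
    · have h1 := (cyc_prime hpos).dvd_of_dvd_pow h
      unfold GG at h1
      obtain ⟨j, hj, h3⟩ := (Prime.dvd_finsetProd_iff (cyc_prime hpos) _).1 h1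
      rw [← pow_mul] at h3
      exact cyc_not_pow hpos (not_dvd hp (mem_range.1 hj)) h3
    · refine cyc_not_pow hpos (N := 1) ?_ (by rwa [pow_one])
      intro h
      have := Nat.le_of_dvd one_pos h
      nlinarith
  have hS : Cg (cyclotomic ((n + 1) ^ 2) ℚ) (S (n + 1)) := by
    refine ⟨_, _, ((cyc_prime hpos).irreducible.coprime_iff_not_dvd.2 hG).symm, hN, ?_⟩
    have hne : ∀ j < n, 1 - (q ^ (n + 2)) ^ (j + 1) ≠ 0 := fun j _ => (qc hp).ne.hG j
    have e1 : Pool.Agent.Q34.QW.em (NN n (n + 2) (X : ℚ[X]) (X ^ (n + 2))) = NN n (n + 2) q (q ^ (n + 2)) := by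
      have := NN_map (algebraMap ℚ[X] (RatFunc ℚ)) n (n + 2) X (X ^ (n + 2))
      rw [map_pow, RatFunc.algebraMap_X] at this
      exact this
    have e2 : Pool.Agent.Q34.QW.em (GG n (X ^ (n + 2) : ℚ[X]) ^ (2 * (n + 2)) * (1 - X)) =
        GG n (q ^ (n + 2)) ^ (2 * (n + 2)) * (1 - q) := by
      have := GG_map (algebraMap ℚ[X] (RatFunc ℚ)) n (X ^ (n + 2))
      rw [map_pow, RatFunc.algebraMap_X] at this
      change algebraMap ℚ[X] (RatFunc ℚ) _ = _
      rw [map_mul, map_pow, this, map_sub, map_one, RatFunc.algebraMap_X]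
    have hG0 : GG n (q ^ (n + 2)) ≠ 0 := by
      unfold GG
      exact prod_ne_zero_iff.2 fun j hj => hne j (mem_range.1 hj)
    rw [e1, e2, NN_eq hne, S_eq, mul_div_mul_left _ _ (pow_ne_zero _ hG0)]
    congr 1
    refine sum_congr rfl fun k _ => ?_
    unfold W ro
    ring
  have hR : Cg (cyclotomic ((n + 1) ^ 2) ℚ) (em (rhs (n + 1))) := by
    refine ⟨rhs (n + 1), 1, isCoprime_one_left, ?_, by simp [em]⟩
    unfold rhs
    exact (dvd_neg).2 (dvd_mul_left _ _)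
  exact hS.sub (cyc_prime hpos).ne_zero (cyc_prime hpos).not_isUnit hR

theorem main {n : ℕ} (hp : (n + 1).Prime) :
    Cg (cyclotomic ((n + 1) ^ 2) ℚ * cyclotomic (n + 1) ℚ ^ 5) (S (n + 1) - em (rhs (n + 1))) := by
  have hpos : 0 < (n + 1) ^ 2 := by positivity
  have hpos' : 0 < n + 1 := by omega
  have h2 := hp.two_le
  refine Cg.combine (cyc_prime hpos).not_isUnit
    (fun h => (cyc_prime hpos').not_isUnit ((isUnit_pow_iff (by norm_num)).1 h)) ?_ (partB hp) (partA hp)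
  refine IsCoprime.pow_right ?_
  rw [(cyc_prime hpos).irreducible.coprime_iff_not_dvd]
  intro h
  have h3 : cyclotomic ((n + 1) ^ 2) ℚ ∣ 1 - X ^ (n + 1) := by
    rw [hcyc hp]
    exact dvd_mul_of_dvd_right h _
  refine cyc_not_pow hpos ?_ h3
  intro h
  have := Nat.le_of_dvd hpos' h
  nlinarith

theorem result : ∀ p : ℕ, p.Prime →
    Cong (cyclotomic (p ^ 2) ℚ * cyclotomic p ℚ ^ 5) (S p)
      (em (-(C (c p) * X * (1 - X) ^ 2 * cyclotomic p ℚ ^ 4 * cyclotomic (p ^ 2) ℚ))) := by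
  intro p hp
  obtain ⟨n, rfl⟩ : ∃ n, p = n + 1 := ⟨p - 1, by have := hp.two_le; omega⟩
  obtain ⟨A, B, hB, hA, e⟩ := main hp
  exact ⟨A, B, e, hB, hA⟩

end Pool.Agent.Results.MP_9fe52c_nt.Full
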